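import Pool.Agent.Work.MP_63b90e_lc.InPP

/-!
Recognising generalised median stable matchings: the problem is complete for PP under many-one
reductions; so it is in NP if and only if PP is contained in NP.

Instances of stable marriage (`SM`), `SM.Valid`, `SM.Stable`, the lists of partners
(`SM.partners`) and generalised median stable matchings (`SM.IsMedian`) are defined in
`Pool.Agent.Work.MP_63b90e_lc.Defs`. The class NP is defined in `Pool.Agent.Work.PolyTime.NPDefs`,
the class PP in `Pool.Agent.Work.PolyTime.PPDefs`, polynomial-time computability (with Mathlib's
machines `Turing.TM2ComputableInPolyTime`) and polynomial-time reducibility in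
`Pool.Agent.Work.PolyTime.ETR`.
-/

set_option autoImplicit false

namespace Pool.Agent.Results.MP_63b90e_lc.MedianPPComplete

open Pool.Agent.Work.PolyTime
open Pool.Agent.Work.MP_63b90e_lc

/-! Encoding of inputs by bit strings. -/

/-- A number is written in unary, `n` as `1010...100`. -/
def encNat : ℕ → List Bool
  | 0 => [false]
  | n + 1 => true :: false :: encNat n

/-- A list is written by writing `1` before each of its elements and `0` at the end. -/
def encList {α : Type} (e : α → List Bool) : List α → List Bool
  | [] => [false]
  | a :: l => true :: (e a ++ encList e l)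

/-- A pair is written by writing `1`, the first and the second component. -/
def encPair {α β : Type} (e : α → List Bool) (f : β → List Bool) (x : α × β) : List Bool :=
  true :: (e x.1 ++ f x.2)

/-- The bit string of an instance and a matching: the preference lists of the men, the preference
lists of the women, and the list of the partners of the men. -/
def encode (I : SM) (M : List ℕ) : List Bool :=
  encPair (encPair (encList (encList encNat)) (encList (encList encNat))) (encList encNat)
    ((I.men, I.women), M)

/-- The decision problem GM: given an instance `I` and a stable matching `M` of `I`, is `M` a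
generalised median stable matching of `I`? -/
def GM : Set (List Bool) :=
  {w | ∃ (I : SM) (M : List ℕ), w = encode I M ∧ I.Valid ∧ I.Stable M ∧ I.IsMedian M}

/-! The encoding is the one used in the proof. -/

theorem encNat_eq (n : ℕ) : encNat n = (code n).ser := by
  induction n with
  | zero => rfl
  | succ n ih => rw [encNat, ih]; rfl

theorem encList_eq {α : Type} [Code α] {e : α → List Bool}
    (h : ∀ a, e a = (code a).ser) (l : List α) : encList e l = (code l).ser := by
  induction l with
  | nil => rfl
  | cons a l ih =>
    rw [encList, ih, h]
    rfl

theorem encPair_eq {α β : Type} [Code α] [Code β] {e : α → List Bool} {f : β → List Bool}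
    (h : ∀ a, e a = (code a).ser) (h' : ∀ a, f a = (code a).ser) (x : α × β) :
    encPair e f x = (code x).ser := by
  rw [encPair, h, h']
  rfl

theorem encode_eq (I : SM) (M : List ℕ) : encode I M = (code ((I.men, I.women), M)).ser :=
  encPair_eq (encPair_eq (encList_eq (encList_eq encNat_eq)) (encList_eq (encList_eq encNat_eq)))
    (encList_eq encNat_eq) _

theorem GM_eq : GM = problem WF Yes := by
  ext w
  constructor
  · rintro ⟨I, M, hw, h1, h2, h3⟩
    exact ⟨((I.men, I.women), M), by rw [hw, encode_eq], ⟨h1, h2⟩, h3⟩
  · rintro ⟨⟨⟨a, b⟩, M⟩, hw, ⟨h1, h2⟩, h3⟩
    exact ⟨⟨a, b⟩, M, by rw [hw, encode_eq], h1, h2, h3⟩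

/-- Completeness for PP under polynomial-time many-one reductions. -/
def PPComplete (L : Set (List Bool)) : Prop :=
  InPP L ∧ ∀ L' : Set (List Bool), InPP L' → PolyReducible L' L

/-- **Recognising generalised median stable matchings.** The problem GM is complete for PP under
polynomial-time many-one reductions. Hence it is in NP if and only if PP is contained in NP, and
if it is in NP, then NP is closed under complements. -/
theorem result :
    PPComplete GM ∧ (InNP GM ↔ ∀ L : Set (List Bool), InPP L → InNP L) ∧
    (InNP GM → ∀ L : Set (List Bool), InNP L → InNP Lᶜ) := by
  rw [GM_eq]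
  exact ⟨⟨gm_inPP, fun _ hL => pp_hard hL⟩, gm_inNP_iff, fun h => np_compl_of_pp (gm_inNP_iff.1 h)⟩

end Pool.Agent.Results.MP_63b90e_lc.MedianPPComplete
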